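import Mathlib
import Pool.Agent.H26.Indep

/-! In ZFC some maximal ideal on `ℕ` is the union of a strictly increasing `ω₁`-chain of ideals. -/

namespace Pool.Agent.Results.MP_ea2126_lc.ChainZFC

open Set Ordinal Pool.Agent.H26.Indep

/-- An ideal on `ℕ`: proper, closed under finite unions (also the empty one) and subsets. -/
def IsIdeal (J : Set (Set ℕ)) : Prop :=
  (Set.univ : Set ℕ) ∉ J ∧ ∅ ∈ J ∧ (∀ A ∈ J, ∀ B ∈ J, A ∪ B ∈ J) ∧ ∀ A ∈ J, ∀ B ⊆ A, B ∈ J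

/-- A maximal ideal: an ideal not properly contained in another ideal. -/
def IsMaximalIdeal (I : Set (Set ℕ)) : Prop :=
  IsIdeal I ∧ ∀ J, IsIdeal J → I ⊆ J → J = I

lemma main {Λ : Type*} [LinearOrder Λ] (j : Λ → Set ℕ) (hj : Function.Injective j)
    (hb : ∀ S : Set Λ, S.Countable → ∃ a, ∀ x ∈ S, x < a) :
    ∃ J : Λ → Set (Set ℕ), (∀ a, IsIdeal (J a)) ∧ (∀ a b, a < b → J a ⊂ J b) ∧
      IsMaximalIdeal (⋃ a, J a) := by
  classical
  obtain ⟨e, he⟩ := exists_dense_of_inj j hj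
  let cyl : Finset Λ → (Λ → Bool) → Set ℕ := fun s σ => {n | ∀ a ∈ s, e n a = σ a}
  obtain ⟨I, -, ⟨i1, i2, i3⟩, i4, i5⟩ := exists_max {b | ∃ s σ, b = cyl s σ} {∅}
    ⟨rfl, by simp, by simp⟩ (by
      rintro b ⟨s, σ, rfl⟩ h
      obtain ⟨n, hn⟩ := he s σ
      have : n ∈ cyl s σ := hn
      rw [h] at this
      exact this)
  have i4' : ∀ s σ, cyl s σ ∉ I := fun s σ => i4 _ ⟨s, σ, rfl⟩
  have huniv : cyl ∅ (fun _ => true) = Set.univ := by ext n; simp [cyl]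
  obtain ⟨M, hIM, ⟨m1, m2, m3⟩, m4, m5⟩ := exists_max {Set.univ} I ⟨i1, i2, i3⟩ (by
    rintro b rfl
    rw [← huniv]; exact i4' _ _)
  have m4' : Set.univ ∉ M := m4 _ rfl
  have m5' : ∀ X, X ∉ M → Xᶜ ∈ M := by
    intro X hX
    obtain ⟨b, rfl, h⟩ := m5 X hX
    rwa [compl_eq_univ_diff]
  let sp : Λ → Set ℕ → Prop := fun α Z => ∀ s σ, cyl s σ ∩ Z ∈ I →
    cyl (s.filter (· < α)) σ ∩ Z ∈ I
  have sp_mono : ∀ α β Z, α ≤ β → sp α Z → sp β Z := by
    intro α β Z h hs s σ hI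
    refine i3 _ (hs s σ hI) _ (inter_subset_inter_left _ ?_)
    intro n hn a ha
    rw [Finset.mem_filter] at ha
    exact hn a (Finset.mem_filter.2 ⟨ha.1, lt_of_lt_of_le ha.2 h⟩)
  -- compatible cylinders
  have compat : ∀ s σ s' σ', (∀ a ∈ s, a ∈ s' → σ a = σ' a) → cyl s σ ∩ cyl s' σ' ∉ I := by
    intro s σ s' σ' h hI
    refine i4' (s ∪ s') (fun a => if a ∈ s then σ a else σ' a) (i3 _ hI _ ?_)
    intro n hn
    refine ⟨fun a ha => ?_, fun a ha => ?_⟩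
    · simpa [ha] using hn a (Finset.mem_union_left _ ha)
    · have := hn a (Finset.mem_union_right _ ha)
      by_cases h' : a ∈ s
      · simp only [h', if_true] at this
        rw [this, h a h' ha]
      · simpa [h'] using this
  have hsp : ∀ Z, ∃ α, sp α Z := by
    intro Z
    have : ∀ n, ∃ p : Finset Λ × (Λ → Bool), (∃ s σ, n ∈ cyl s σ ∧ cyl s σ ∩ Z ∈ I) →
        n ∈ cyl p.1 p.2 ∧ cyl p.1 p.2 ∩ Z ∈ I := by
      intro n
      by_cases h : ∃ s σ, n ∈ cyl s σ ∧ cyl s σ ∩ Z ∈ I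
      · obtain ⟨s, σ, h⟩ := h
        exact ⟨(s, σ), fun _ => h⟩
      · exact ⟨(∅, fun _ => true), fun h' => absurd h' h⟩
    choose p hp using this
    obtain ⟨α, hα⟩ := hb (⋃ n, ↑(p n).1)
      (countable_iUnion (fun n => (p n).1.finite_toSet.countable))
    refine ⟨α, fun s σ hI => ?_⟩
    by_contra hc
    obtain ⟨b, ⟨s', σ', rfl⟩, hb'⟩ := i5 _ hc
    have h1 : ∀ a ∈ s, a < α → a ∈ s' → σ a = σ' a := by
      intro a ha haα ha'
      by_contra hne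
      refine i4' s' σ' (i3 _ hb' _ ?_)
      intro n hn
      refine ⟨hn, fun h => hne ?_⟩
      rw [← h.1 a (Finset.mem_filter.2 ⟨ha, haα⟩), hn a ha']
    obtain ⟨n, hn⟩ := he (s ∪ s'.filter (· < α)) (fun a => if a ∈ s then σ a else σ' a)
    have hn1 : n ∈ cyl s σ := fun a ha => by
      simpa [ha] using hn a (Finset.mem_union_left _ ha)
    obtain ⟨h2, h3⟩ := hp n ⟨s, σ, hn1, hI⟩
    refine compat (p n).1 (p n).2 s' σ' ?_ (i3 _ (i2 _ h3 _ hb') _ ?_)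
    · intro a ha ha'
      have haα : a < α := hα a (mem_iUnion.2 ⟨n, ha⟩)
      have := hn a (Finset.mem_union_right _ (Finset.mem_filter.2 ⟨ha', haα⟩))
      rw [← h2 a ha, this]
      by_cases h' : a ∈ s
      · simp only [h', if_true]
        exact h1 a h' haα ha'
      · simp [h']
    · rintro m ⟨hm1, hm2⟩
      by_cases hm : m ∈ Z
      · exact Or.inl ⟨hm1, hm⟩
      · exact Or.inr ⟨hm2, fun h => hm h.2⟩
  let J : Λ → Set (Set ℕ) := fun α => {X | ∃ Z ∈ M, X ⊆ Z ∧ sp α Z}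
  have hJM : ∀ α, J α ⊆ M := fun α X ⟨Z, hZ, hX, _⟩ => m3 _ hZ _ hX
  have hU : (⋃ a, J a) = M := by
    refine subset_antisymm (iUnion_subset hJM) (fun Z hZ => ?_)
    obtain ⟨α, hα⟩ := hsp Z
    exact mem_iUnion.2 ⟨α, Z, hZ, subset_rfl, hα⟩
  refine ⟨J, fun α => ⟨fun h => m4' (hJM α h), ⟨∅, m1, subset_rfl, fun s σ _ => by simpa using i1⟩,
    ?_, ?_⟩, ?_, ?_⟩
  · rintro A ⟨Z, hZ, hA, hs⟩ B ⟨Z', hZ', hB, hs'⟩
    refine ⟨Z ∪ Z', m2 _ hZ _ hZ', union_subset_union hA hB, fun s σ h => ?_⟩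
    rw [inter_union_distrib_left] at h ⊢
    exact i2 _ (hs s σ (i3 _ h _ subset_union_left)) _ (hs' s σ (i3 _ h _ subset_union_right))
  · rintro A ⟨Z, hZ, hA, hs⟩ B hB
    exact ⟨Z, hZ, hB.trans hA, hs⟩
  · intro α β hαβ
    refine ⟨fun X ⟨Z, hZ, hX, hs⟩ => ⟨Z, hZ, hX, sp_mono _ _ _ hαβ.le hs⟩, fun hsub => ?_⟩
    obtain ⟨t, ht⟩ : ∃ t : Bool, cyl {α} (fun _ => t) ∈ M := by
      by_cases h : cyl {α} (fun _ => true) ∈ M
      · exact ⟨true, h⟩
      · refine ⟨false, m3 _ (m5' _ h) _ ?_⟩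
        intro n hn hn'
        have h1 := hn α (Finset.mem_singleton_self _)
        have h2 := hn' α (Finset.mem_singleton_self _)
        rw [h1] at h2
        exact Bool.noConfusion h2
    have h1 : cyl {α} (fun _ => t) ∈ J β := by
      refine ⟨_, ht, subset_rfl, fun s σ h => ?_⟩
      have h2 : ¬ ∀ a ∈ s, a ∈ ({α} : Finset Λ) → σ a = t := fun h' => compat _ _ _ _ h' h
      simp only [Finset.mem_singleton, not_forall] at h2
      obtain ⟨a, ha, rfl, hne⟩ := h2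
      refine i3 _ i1 _ ?_
      rintro n ⟨hn1, hn2⟩
      apply hne
      rw [← hn1 a (Finset.mem_filter.2 ⟨ha, hαβ⟩), hn2 a (Finset.mem_singleton_self _)]
    obtain ⟨Z, hZ, hX, hs⟩ := hsub h1
    have h2 : Zᶜ ∉ I := fun h => m4' (by
      have := m2 _ hZ _ (hIM h)
      rwa [union_compl_self] at this)
    obtain ⟨b, ⟨s, σ, rfl⟩, hb'⟩ := i5 _ h2
    rw [diff_compl] at hb'
    refine compat (s.filter (· < α)) σ {α} (fun _ => t) ?_
      (i3 _ (hs s σ hb') _ (inter_subset_inter_right _ hX))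
    intro a ha ha'
    rw [Finset.mem_singleton] at ha'
    rw [ha', Finset.mem_filter] at ha
    exact absurd ha.2 (lt_irrefl _)
  · rw [hU]
    refine ⟨⟨m4', m1, m2, m3⟩, fun K hK hMK => subset_antisymm (fun X hX => ?_) hMK⟩
    by_contra h
    have := hK.2.2.1 _ hX _ (hMK (m5' X h))
    rw [union_compl_self] at this
    exact hK.1 this

theorem result : ∃ J : Ordinal.{0} → Set (Set ℕ),
    (∀ α < ω₁, IsIdeal (J α)) ∧ (∀ α β, α < β → β < ω₁ → J α ⊂ J β) ∧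
      IsMaximalIdeal (⋃ α ∈ Set.Iio ω₁, J α) := by
  classical
  obtain ⟨j⟩ : Nonempty (Set.Iio (ω₁ : Ordinal.{0}) ↪ Set ℕ) := by
    rw [← Cardinal.lift_mk_le', Cardinal.mk_Iio_ordinal]
    simp [Cardinal.aleph0_lt_continuum]
  obtain ⟨J, h1, h2, h3⟩ := main j j.injective (by
    intro S hS
    haveI := hS.to_subtype
    have h := Ordinal.iSup_lt_omega_one (α := S) (f := fun x => x.1.1 + 1)
      (fun x => (Cardinal.isSuccLimit_omega 1).add_one_lt x.1.2)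
    refine ⟨⟨_, h⟩, fun x hx => ?_⟩
    show x.1 < ⨆ x : S, (x.1.1 + 1)
    exact lt_of_lt_of_le (lt_add_one _)
      (Ordinal.le_iSup (fun x : S => x.1.1 + 1) ⟨x, hx⟩))
  refine ⟨fun α => if h : α < ω₁ then J ⟨α, h⟩ else ∅, ?_, ?_, ?_⟩
  · intro α h
    simpa [h] using h1 ⟨α, h⟩
  · intro α β h h'
    simpa [h', h.trans h'] using h2 ⟨α, h.trans h'⟩ ⟨β, h'⟩ h
  · convert h3 using 1
    ext X
    simp only [mem_iUnion, mem_Iio]
    constructor
    · rintro ⟨α, h, hX⟩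
      exact ⟨⟨α, h⟩, by simpa [h] using hX⟩
    · rintro ⟨⟨α, h⟩, hX⟩
      have h' : α < ω₁ := h
      exact ⟨α, h', by simpa [h'] using hX⟩

end Pool.Agent.Results.MP_ea2126_lc.ChainZFC
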